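import Pool.Agent.Helper47.FLG.Alg2

/-!
# Project FLG (MP_c98eff_gt): equality in `elk ≥ 0` (goal `G_SA1`)
-/

namespace Pool.Agent.Helper47.FLG

open Finset Pool.Agent.Helper47.RFn
open Matrix
open scoped MatrixOrder

namespace SA1aux

/-- a contraction: the sum of the squares of the scalar products -/
lemma con_bessel {n : ℕ} {ι : Type} [Fintype ι] (X : ι → Fin n → ℝ)
    (hX : ∀ c : ι → ℝ, nrm (fun j => ∑ i, c i * X i j) ≤ ∑ i, c i ^ 2) (v : Fin n → ℝ) :
    ∑ i, (dot v (X i)) ^ 2 ≤ dot v v := by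
  have h := hX (fun i => dot v (X i))
  set w : Fin n → ℝ := fun j => ∑ i, dot v (X i) * X i j with hw
  have h1 : ∑ j, v j * w j = ∑ i, (dot v (X i)) ^ 2 := by
    calc ∑ j, v j * w j = ∑ j, ∑ i, dot v (X i) * (v j * X i j) := by
          refine sum_congr rfl fun j _ => ?_
          rw [hw, mul_sum]
          refine sum_congr rfl fun i _ => ?_
          ring
      _ = ∑ i, ∑ j, dot v (X i) * (v j * X i j) := sum_comm
      _ = ∑ i, (dot v (X i)) ^ 2 := by
          refine sum_congr rfl fun i _ => ?_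
          rw [← mul_sum, sq]; rfl
  have h2 : 0 ≤ ∑ j, (v j - w j) ^ 2 := sum_nonneg fun j _ => sq_nonneg _
  have h3 : ∑ j, (v j - w j) ^ 2 = dot v v - 2 * ∑ j, v j * w j + nrm w := by
    unfold dot nrm
    rw [mul_sum, ← sum_sub_distrib, ← sum_add_distrib]
    refine sum_congr rfl fun j _ => ?_
    ring
  rw [h3, h1] at h2
  linarith

lemma psd_trace {n : ℕ} {ι : Type} [Fintype ι] (M : Matrix (Fin n) (Fin n) ℝ) (hM : M.PosSemidef)
    (X : ι → Fin n → ℝ) (hX : ∀ v : Fin n → ℝ, ∑ i, (dot v (X i)) ^ 2 ≤ dot v v) :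
    ∑ i, X i ⬝ᵥ (M *ᵥ X i) ≤ M.trace := by
  obtain ⟨B, rfl⟩ := CStarAlgebra.nonneg_iff_eq_star_mul_self.mp hM.nonneg
  have e1 : ∀ x : Fin n → ℝ, x ⬝ᵥ ((star B * B) *ᵥ x) = ∑ b, (dot (B b) x) ^ 2 := by
    intro x
    rw [← Matrix.mulVec_mulVec, Matrix.dotProduct_mulVec, star_eq_conjTranspose, vecMul_conjTranspose]
    simp only [dotProduct, star_trivial, mulVec, dot, Pi.star_apply, sq]
  have e2 : (star B * B).trace = ∑ b, dot (B b) (B b) := by
    rw [star_eq_conjTranspose]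
    simp only [Matrix.trace, Matrix.diag_apply, Matrix.mul_apply, conjTranspose_apply, star_trivial, dot]
    rw [sum_comm]
  rw [e2]
  simp only [e1]
  rw [sum_comm]
  exact sum_le_sum fun b _ => hX (B b)

lemma dot_comm {n : ℕ} (u v : Fin n → ℝ) : dot u v = dot v u := by
  unfold dot
  exact sum_congr rfl fun i _ => mul_comm _ _

lemma nrm_eq {n : ℕ} (u : Fin n → ℝ) : nrm u = dot u u := by
  unfold nrm dot
  exact sum_congr rfl fun i _ => sq _

lemma dot_lin {n : ℕ} (u v w : Fin n → ℝ) (s : ℝ) :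
    dot (fun i => u i - s * w i) v = dot u v - s * dot w v := by
  unfold dot
  rw [mul_sum, ← sum_sub_distrib]
  exact sum_congr rfl fun i _ => by ring

lemma dot_smul {n : ℕ} (u v : Fin n → ℝ) (s : ℝ) : dot u (fun i => s * v i) = s * dot u v := by
  unfold dot
  rw [mul_sum]
  exact sum_congr rfl fun i _ => by ring

/-- adding a unit vector orthogonal to an orthonormal family -/
lemma bessel_option {n : ℕ} {k : ℕ} (X : Fin k → Fin n → ℝ) (q : Fin n → ℝ)
    (hX : ∀ v : Fin n → ℝ, ∑ i, (dot v (X i)) ^ 2 ≤ dot v v) (hq : ∀ i, dot q (X i) = 0)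
    (s : ℝ) (hs : s ^ 2 * dot q q = 1) (v : Fin n → ℝ) :
    ∑ i : Option (Fin k), (dot v (i.elim (fun j => s * q j) X)) ^ 2 ≤ dot v v := by
  rw [Fintype.sum_option]
  have h := hX (fun i => v i - (s ^ 2 * dot v q) * q i)
  have e1 : ∀ i, dot (fun i => v i - (s ^ 2 * dot v q) * q i) (X i) = dot v (X i) := by
    intro i; rw [dot_lin, hq, mul_zero, sub_zero]
  have e2 : dot (fun i => v i - (s ^ 2 * dot v q) * q i) (fun i => v i - (s ^ 2 * dot v q) * q i) =
      dot v v - s ^ 2 * (dot v q) ^ 2 := by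
    rw [dot_lin, dot_comm v, dot_comm q, dot_lin, dot_lin, dot_comm q v]
    linear_combination (s ^ 2 * dot v q ^ 2) * hs
  simp only [e1, e2] at h
  have e3 : (dot v (Option.elim (none : Option (Fin k)) (fun j => s * q j) X)) ^ 2 =
      s ^ 2 * (dot v q) ^ 2 := by
    show (dot v (fun j => s * q j)) ^ 2 = _
    rw [dot_smul]; ring
  rw [e3]
  show s ^ 2 * (dot v q) ^ 2 + ∑ i, (dot v (X i)) ^ 2 ≤ dot v v
  linarith

lemma exists_wd_pos {n : ℕ} (hn : 2 ≤ n) (z : Fin n → ℝ) (hz : nrm z = 1) : ∃ y : Fin n → ℝ, 0 < wd y z := by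
  by_contra h
  have h1 : ∀ i, wd (sb i) z ≤ 0 := fun i => le_of_not_gt fun h2 => h ⟨_, h2⟩
  have h2 : ∀ i : Fin n, wd (sb i) z = 1 - z i ^ 2 := by
    intro i
    unfold wd nrm dot sb at *
    rw [hz]
    simp
  have h3 : ∑ i : Fin n, wd (sb i) z = (n : ℝ) - 1 := by
    simp only [h2]
    rw [sum_sub_distrib]
    have : ∑ i, z i ^ 2 = 1 := hz
    rw [this]; simp
  have h4 : ∑ i : Fin n, wd (sb i) z ≤ 0 := sum_nonpos fun i _ => h1 i
  have h5 : (2 : ℝ) ≤ n := by exact_mod_cast hn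
  linarith

lemma exists_m {n : ℕ} (hn : 4 ≤ n) (hFG2 : G_FG2) (hR4T : G_R4T) (R : T4 n) (z : Fin n → ℝ) (hR : FG R)
    (hl : 0 < lam R) (hz : nrm z = 1) :
    ∃ m > 0, ∀ v, m * wd v z ≤ K2 R v z ∧ K2 R v z ≤ 4 * m * wd v z := by
  obtain ⟨-, -, hlow, hup, -⟩ := hFG2 n hn R hR
  obtain ⟨-, -, -, -, -, -, -, hwd, -⟩ := hR4T n
  set c : ℝ := lam R / (16 * ((n : ℝ) - 1)) with hc
  have hn' : (4 : ℝ) ≤ n := by exact_mod_cast hn
  have hc0 : 0 < c := by
    apply div_pos hl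
    linarith
  obtain ⟨y0, hy0⟩ := exists_wd_pos (by omega) z hz
  set S : Set ℝ := {r | ∃ y, 0 < wd y z ∧ r = K2 R y z / wd y z} with hS
  have hne : S.Nonempty := ⟨_, y0, hy0, rfl⟩
  have hlb : ∀ r ∈ S, c ≤ r := by
    rintro r ⟨y, hy, rfl⟩
    rw [le_div_iff₀ hy]
    exact hlow y z
  have hbd : BddBelow S := ⟨c, fun r hr => hlb r hr⟩
  refine ⟨sInf S, lt_of_lt_of_le hc0 (le_csInf hne hlb), fun v => ?_⟩
  rcases (hwd v z).lt_or_eq with hv | hv
  · constructor
    · rw [← le_div_iff₀ hv]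
      exact csInf_le hbd ⟨v, hv, rfl⟩
    · have h1 : K2 R v z / (4 * wd v z) ≤ sInf S := by
        refine le_csInf hne ?_
        rintro r ⟨y, hy, rfl⟩
        rw [div_le_div_iff₀ (by positivity) hy]
        have := hR.2 z v y
        unfold fl at this
        linarith
      rw [div_le_iff₀ (by positivity)] at h1
      linarith
  · have h1 := hlow v z
    have h2 := hup v z
    rw [← hv] at h1 h2 ⊢
    constructor <;> linarith

end SA1aux

open SA1aux

theorem g_SA1 (hFG2 : G_FG2) (hLN : RFn.Goal_LN) (hR4T : G_R4T) : G_SA1 := by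
  intro n hn R k z X hR hl hz hk hkn hX hel
  obtain ⟨m, hm, hmK⟩ := exists_m hn hFG2 hR4T R z hR hl hz
  obtain ⟨-, -, hsym, hK2, hK2s, -, -, -, -, -, hexp, -, hric⟩ := hR4T n
  have hzz : dot z z = 1 := by rw [← nrm_eq]; exact hz
  have hwdz : ∀ v, wd v z = dot v v - dot v z ^ 2 := by
    intro v; unfold wd; rw [hz, nrm_eq]; ring
  -- matrices
  set M0 : Matrix (Fin n) (Fin n) ℝ := fun i j => R4 R z (sb i) z (sb j) with hM0
  set P : Matrix (Fin n) (Fin n) ℝ := fun i j => (if i = j then 1 else 0) - z i * z j with hP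
  have eM0 : ∀ p q : Fin n → ℝ, p ⬝ᵥ (M0 *ᵥ q) = R4 R z p z q := by
    intro p q
    rw [(hexp R z p z q).2.1]
    refine sum_congr rfl fun i _ => ?_
    rw [(hexp R z (sb i) z q).2.2.2]
    show p i * ∑ j, M0 i j * q j = _
    congr 1
    refine sum_congr rfl fun j _ => ?_
    rw [mul_comm]
  have eP : ∀ p q : Fin n → ℝ, p ⬝ᵥ (P *ᵥ q) = dot p q - dot p z * dot q z := by
    intro p q
    have h1 : ∀ i, (P *ᵥ q) i = q i - z i * dot q z := by
      intro i
      show ∑ j, ((if i = j then (1 : ℝ) else 0) - z i * z j) * q j = _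
      unfold dot
      rw [mul_sum]
      simp only [sub_mul, sum_sub_distrib, ite_mul, one_mul, zero_mul, sum_ite_eq, mem_univ, if_true]
      congr 1
      refine sum_congr rfl fun j _ => ?_
      ring
    show ∑ i, p i * (P *ᵥ q) i = _
    simp only [h1]
    unfold dot
    rw [sum_mul, ← sum_sub_distrib]
    refine sum_congr rfl fun i _ => ?_
    ring
  have tM0 : M0.trace = rq (Ric R) z := (hric R z).symm
  have tP : P.trace = (n : ℝ) - 1 := by
    show ∑ i, ((if i = i then (1 : ℝ) else 0) - z i * z i) = _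
    have : ∑ i, z i * z i = 1 := hzz
    simp [this]
  have sM0 : M0.IsHermitian := by
    ext i j
    show M0 j i = M0 i j
    exact (hsym R hR.1 z (sb j) z (sb i)).2.2.1
  have sP : P.IsHermitian := by
    ext i j
    show P j i = P i j
    show (if j = i then (1 : ℝ) else 0) - z j * z i = (if i = j then (1 : ℝ) else 0) - z i * z j
    rw [mul_comm (z j)]
    congr 1
    by_cases h : i = j
    · subst h; rfl
    · rw [if_neg h, if_neg (Ne.symm h)]
  have kz : ∀ v, R4 R z v z v = K2 R v z := by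
    intro v; rw [← hK2, hK2s R hR.1]
  set M1 : Matrix (Fin n) (Fin n) ℝ := M0 - m • P with hM1
  set M2 : Matrix (Fin n) (Fin n) ℝ := (4 * m) • P - M0 with hM2
  have eM1 : ∀ p q : Fin n → ℝ, p ⬝ᵥ (M1 *ᵥ q) = R4 R z p z q - m * (dot p q - dot p z * dot q z) := by
    intro p q
    rw [hM1, sub_mulVec, dotProduct_sub, smul_mulVec, dotProduct_smul, eM0, eP, smul_eq_mul]
  have eM2 : ∀ p q : Fin n → ℝ, p ⬝ᵥ (M2 *ᵥ q) = 4 * m * (dot p q - dot p z * dot q z) - R4 R z p z q := by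
    intro p q
    rw [hM2, sub_mulVec, dotProduct_sub, smul_mulVec, dotProduct_smul, eM0, eP, smul_eq_mul]
  have pM1 : M1.PosSemidef := by
    refine PosSemidef.of_dotProduct_mulVec_nonneg (sM0.sub (sP.smul (k := m) ?_)) fun x => ?_
    · rfl
    · rw [star_trivial, eM1, kz]
      have := (hmK x).1
      rw [hwdz] at this
      nlinarith
  have pM2 : M2.PosSemidef := by
    refine PosSemidef.of_dotProduct_mulVec_nonneg ((sP.smul (k := 4 * m) ?_).sub sM0) fun x => ?_
    · rfl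
    · rw [star_trivial, eM2, kz]
      have := (hmK x).2
      rw [hwdz] at this
      nlinarith
  -- Bessel
  have hX' : ∀ c : Fin k → ℝ, nrm (fun j => ∑ i, c i * X i j) ≤ ∑ i, c i ^ 2 := hX
  have bes := con_bessel X hX'
  have T1 := psd_trace M1 pM1 X bes
  have hn' : (4 : ℝ) ≤ n := by exact_mod_cast hn
  have hk' : (1 : ℝ) ≤ k := by exact_mod_cast hk
  have hkn' : (k : ℝ) + 2 ≤ n := by exact_mod_cast hkn
  -- norms
  have ha1 : ∀ i, dot (X i) (X i) ≤ 1 := by
    intro i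
    have h1 := bes (X i)
    have h2 : (dot (X i) (X i)) ^ 2 ≤ ∑ j, (dot (X i) (X j)) ^ 2 :=
      single_le_sum (f := fun j => (dot (X i) (X j)) ^ 2) (fun j _ => sq_nonneg _) (mem_univ i)
    by_contra h3
    have h3' : 1 < dot (X i) (X i) := not_le.1 h3
    nlinarith
  have tM1 : M1.trace = rq (Ric R) z - m * ((n : ℝ) - 1) := by
    rw [hM1, trace_sub, trace_smul, tM0, tP, smul_eq_mul]
  have q1 : ∀ i, X i ⬝ᵥ (M1 *ᵥ X i) = K2 R z (X i) - m * (dot (X i) (X i) - dot (X i) z ^ 2) := by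
    intro i; rw [eM1, kz, hK2s R hR.1]; ring
  have q2 : ∀ i, X i ⬝ᵥ (M2 *ᵥ X i) = 4 * m * (dot (X i) (X i) - dot (X i) z ^ 2) - K2 R z (X i) := by
    intro i; rw [eM2, kz, hK2s R hR.1]; ring
  have p2 : ∀ i, 0 ≤ X i ⬝ᵥ (M2 *ᵥ X i) := by
    intro i
    have := pM2.dotProduct_mulVec_nonneg (X i)
    rwa [star_trivial] at this
  set τ : ℝ := ∑ i, (dot (X i) (X i) - dot (X i) z ^ 2) with hτ
  set κ : ℝ := ∑ i, K2 R z (X i) with hκ
  have s1 : ∑ i, X i ⬝ᵥ (M1 *ᵥ X i) = κ - m * τ := by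
    simp only [q1]
    rw [sum_sub_distrib, ← mul_sum]
  have s2 : ∑ i, X i ⬝ᵥ (M2 *ᵥ X i) = 4 * m * τ - κ := by
    simp only [q2]
    rw [sum_sub_distrib, ← mul_sum]
  have s3 : ∑ i : Fin k, (1 - (dot (X i) (X i) - dot (X i) z ^ 2)) = (k : ℝ) - τ := by
    rw [sum_sub_distrib, ← hτ]
    simp only [sum_const, card_univ, Fintype.card_fin, nsmul_eq_mul, mul_one]
  have n3 : ∀ i, 0 ≤ 1 - (dot (X i) (X i) - dot (X i) z ^ 2) := by
    intro i
    have := ha1 i
    have := sq_nonneg (dot (X i) z)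
    linarith
  have S2 : 0 ≤ 4 * m * τ - κ := by rw [← s2]; exact sum_nonneg fun i _ => p2 i
  have S3 : 0 ≤ (k : ℝ) - τ := by rw [← s3]; exact sum_nonneg fun i _ => n3 i
  rw [s1, tM1] at T1
  have hel' : 4 * k * rq (Ric R) z - ((n : ℝ) - 1 + 3 * k) * κ = 0 := hel
  set ρ : ℝ := rq (Ric R) z with hρ
  -- the decomposition of `elk`
  have key : 4 * (k : ℝ) * (ρ - m * ((n : ℝ) - 1) - (κ - m * τ)) + ((n : ℝ) - 1 - k) * (4 * m * τ - κ) +
      4 * m * ((n : ℝ) - 1) * ((k : ℝ) - τ) = 0 := by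
    linear_combination hel'
  have t1 : 0 ≤ 4 * (k : ℝ) * (ρ - m * ((n : ℝ) - 1) - (κ - m * τ)) := by
    apply mul_nonneg (by linarith); linarith
  have t2 : 0 ≤ ((n : ℝ) - 1 - k) * (4 * m * τ - κ) := mul_nonneg (by linarith) S2
  have t3 : 0 ≤ 4 * m * ((n : ℝ) - 1) * ((k : ℝ) - τ) := by
    apply mul_nonneg (mul_nonneg (by linarith) (by linarith)) S3
  have z1 : κ - m * τ = ρ - m * ((n : ℝ) - 1) := by
    have : 4 * (k : ℝ) * (ρ - m * ((n : ℝ) - 1) - (κ - m * τ)) = 0 := by linarith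
    rcases mul_eq_zero.1 this with h | h
    · linarith
    · linarith
  have z2 : 4 * m * τ - κ = 0 := by
    have : ((n : ℝ) - 1 - k) * (4 * m * τ - κ) = 0 := by linarith
    rcases mul_eq_zero.1 this with h | h
    · linarith
    · exact h
  have z3 : (k : ℝ) - τ = 0 := by
    have : 4 * m * ((n : ℝ) - 1) * ((k : ℝ) - τ) = 0 := by linarith
    rcases mul_eq_zero.1 this with h | h
    · have : 0 < 4 * m * ((n : ℝ) - 1) := mul_pos (by linarith) (by linarith)
      linarith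
    · exact h
  have w3 : ∀ i, 1 - (dot (X i) (X i) - dot (X i) z ^ 2) = 0 := by
    intro i
    rw [← s3] at z3
    exact (sum_eq_zero_iff_of_nonneg fun i _ => n3 i).1 z3 i (mem_univ i)
  have w2 : ∀ i, X i ⬝ᵥ (M2 *ᵥ X i) = 0 := by
    intro i
    rw [← s2] at z2
    exact (sum_eq_zero_iff_of_nonneg fun i _ => p2 i).1 z2 i (mem_univ i)
  have u1 : ∀ i, dot (X i) (X i) = 1 := by
    intro i
    have h1 := w3 i
    have h2 := ha1 i
    have h3 := sq_nonneg (dot (X i) z)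
    linarith
  have u2 : ∀ i, dot (X i) z = 0 := by
    intro i
    have h1 := w3 i
    have h2 := u1 i
    have h3 : dot (X i) z ^ 2 = 0 := by linarith
    exact pow_eq_zero_iff (two_ne_zero) |>.1 h3
  refine ⟨m, hm, ?_, u2, ?_, ?_⟩
  · -- orthonormal
    intro i j
    by_cases hij : i = j
    · subst hij; rw [if_pos rfl]; exact u1 i
    · rw [if_neg hij]
      have h1 := bes (X i)
      rw [u1 i] at h1
      have h2 : (dot (X i) (X i)) ^ 2 + (dot (X i) (X j)) ^ 2 ≤ ∑ l, (dot (X i) (X l)) ^ 2 := by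
        have := sum_le_sum_of_subset_of_nonneg (f := fun l => (dot (X i) (X l)) ^ 2)
          (subset_univ ({i, j} : Finset (Fin k))) (fun l _ _ => sq_nonneg _)
        rwa [sum_pair hij] at this
      rw [u1 i] at h2
      have h3 : (dot (X i) (X j)) ^ 2 = 0 := by
        have := sq_nonneg (dot (X i) (X j))
        linarith
      exact pow_eq_zero_iff (two_ne_zero) |>.1 h3
  · intro i
    refine ⟨u2 i, fun p => ?_⟩
    have h1 : M2 *ᵥ X i = 0 := by
      rw [← pM2.dotProduct_mulVec_zero_iff, star_trivial]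
      exact w2 i
    have h2 := eM2 p (X i)
    rw [h1, dotProduct_zero, u2 i] at h2
    linarith
  · intro q hqz hqX
    refine ⟨hqz, fun p => ?_⟩
    have h0 : M1 *ᵥ q = 0 := by
      rw [← pM1.dotProduct_mulVec_zero_iff, star_trivial]
      have hnn : 0 ≤ q ⬝ᵥ (M1 *ᵥ q) := by
        have := pM1.dotProduct_mulVec_nonneg q
        rwa [star_trivial] at this
      have hq0 : 0 ≤ dot q q := by
        rw [← nrm_eq]; exact sum_nonneg fun i _ => sq_nonneg _
      rcases hq0.lt_or_eq with hq1 | hq1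
      · have hs : (√(dot q q))⁻¹ ^ 2 * dot q q = 1 := by
          rw [inv_pow, Real.sq_sqrt hq0, inv_mul_cancel₀ hq1.ne']
        have h3 := psd_trace M1 pM1 _ (bessel_option X q bes hqX (√(dot q q))⁻¹ hs)
        rw [Fintype.sum_option] at h3
        have h4 : (fun j => (√(dot q q))⁻¹ * q j) ⬝ᵥ (M1 *ᵥ (fun j => (√(dot q q))⁻¹ * q j)) +
            ∑ i, X i ⬝ᵥ (M1 *ᵥ X i) ≤ M1.trace := h3
        rw [s1, tM1, z1] at h4
        have h5 : (fun j => (√(dot q q))⁻¹ * q j) = (√(dot q q))⁻¹ • q := rfl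
        rw [h5, mulVec_smul, dotProduct_smul, smul_dotProduct, smul_eq_mul, smul_eq_mul] at h4
        have h6 : 0 < (√(dot q q))⁻¹ := inv_pos.2 (Real.sqrt_pos.2 hq1)
        have h7 : (√(dot q q))⁻¹ * ((√(dot q q))⁻¹ * (q ⬝ᵥ (M1 *ᵥ q))) ≤ 0 := by linarith
        have h8 : (√(dot q q))⁻¹ * (q ⬝ᵥ (M1 *ᵥ q)) ≤ 0 := by
          by_contra h9
          have := mul_pos h6 (not_le.1 h9)
          linarith
        have h10 : q ⬝ᵥ (M1 *ᵥ q) ≤ 0 := by
          by_contra h9
          have := mul_pos h6 (not_le.1 h9)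
          linarith
        linarith
      · have h3 : q = 0 := by
          funext i
          have h4 : ∑ i, q i * q i = 0 := hq1.symm
          have h5 := (sum_eq_zero_iff_of_nonneg fun i _ => mul_self_nonneg (q i)).1 h4 i (mem_univ i)
          exact mul_self_eq_zero.1 h5
        rw [h3, zero_dotProduct]
    have h2 := eM1 p q
    rw [h0, dotProduct_zero, hqz] at h2
    linarith

end Pool.Agent.Helper47.FLG
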