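import Pool.Agent.Helper47.FLG.Pde

/-!
# Project FLG (MP_c98eff_gt): evolution of the Pfaffian (goal `G_PF3`)
-/

namespace Pool.Agent.Helper47.FLG

open Finset Pool.Agent.Helper47.RFn

namespace PF3aux

lemma D_prod {B : Type} [CommRing B] [Algebra ℝ B] (D : Derivation ℝ B B) {ι : Type} [DecidableEq ι]
    (s : Finset ι) (f : ι → B) : D (∏ j ∈ s, f j) = ∑ i ∈ s, D (f i) * ∏ j ∈ s.erase i, f j := by
  induction s using Finset.induction_on with
  | empty => simp
  | insert a s ha ih =>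
    rw [prod_insert ha, D.leibniz, ih, sum_insert ha, erase_insert ha, smul_eq_mul, smul_eq_mul, add_comm,
      mul_comm (∏ j ∈ s, f j), mul_sum]
    congr 1
    refine sum_congr rfl fun i hi => ?_
    have hia : a ≠ i := fun h => ha (h ▸ hi)
    rw [erase_insert_of_ne hia, prod_insert (fun h => ha (mem_of_mem_erase h))]
    ring

lemma pe_inj {m : ℕ} {i j : Fin m} (h : i ≠ j) : (pe i : Fin (2 * m + 1)) ≠ pe j := by
  intro h'
  apply h
  have := congrArg Fin.val h'
  simp only [pe] at this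
  exact Fin.ext (by omega)

lemma po_inj {m : ℕ} {i j : Fin m} (h : i ≠ j) : (po i : Fin (2 * m + 1)) ≠ po j := by
  intro h'
  apply h
  have := congrArg Fin.val h'
  simp only [po] at this
  exact Fin.ext (by omega)

lemma pe_po {m : ℕ} (i j : Fin m) : (pe i : Fin (2 * m + 1)) ≠ po j := by
  intro h'
  have := congrArg Fin.val h'
  simp only [po, pe] at this
  omega

lemma pe_zero {m : ℕ} (i : Fin m) : (pe i : Fin (2 * m + 1)) ≠ 0 := by
  intro h'
  have := congrArg Fin.val h'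
  simp only [pe, Fin.val_zero] at this
  omega

lemma po_zero {m : ℕ} (i : Fin m) : (po i : Fin (2 * m + 1)) ≠ 0 := by
  intro h'
  have := congrArg Fin.val h'
  simp only [po, Fin.val_zero] at this
  omega

lemma sum_split {m : ℕ} {B : Type} [AddCommMonoid B] (g : Fin (2 * m + 1) → B) :
    ∑ i, g i = g 0 + ∑ i : Fin m, (g (pe i) + g (po i)) := by
  let g' : ℕ → B := fun k => if h : k < 2 * m + 1 then g ⟨k, h⟩ else 0
  have h1 : ∑ i, g i = ∑ k ∈ range (2 * m + 1), g' k := by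
    rw [Finset.sum_range]
    refine sum_congr rfl fun i _ => ?_
    simp only [g', i.2, dif_pos, Fin.eta]
  have h2 : ∀ l : ℕ, ∑ k ∈ range (2 * l + 1), g' k = g' 0 + ∑ i ∈ range l, (g' (2 * i + 1) + g' (2 * i + 2)) := by
    intro l
    induction l with
    | zero => simp
    | succ l ih =>
      rw [show 2 * (l + 1) + 1 = 2 * l + 1 + 1 + 1 by ring, sum_range_succ, sum_range_succ, ih,
        sum_range_succ, add_assoc, add_assoc]
  rw [h1, h2 m, Finset.sum_range]
  congr 1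
  refine sum_congr rfl fun i _ => ?_
  have e1 : 2 * (i : ℕ) + 1 < 2 * m + 1 := by have := i.2; omega
  have e2 : 2 * (i : ℕ) + 2 < 2 * m + 1 := by have := i.2; omega
  simp only [g', e1, e2, dif_pos, pe, po]

lemma alt_eq {m : ℕ} {B : Type} [CommRing B]
    (X : (Fin (2 * m + 1) → Fin (2 * m + 1)) → (Fin (2 * m + 1) → Fin (2 * m + 1)) → B) :
    alt X = ∑ p : Equiv.Perm (Fin (2 * m + 1)), (Equiv.Perm.sign p : ℤ) •
      ∑ s : Equiv.Perm (Fin (2 * m + 1)), (Equiv.Perm.sign s : ℤ) • X s p := by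
  unfold alt
  rw [sum_comm]
  refine sum_congr rfl fun p _ => ?_
  rw [smul_sum]
  refine sum_congr rfl fun s _ => ?_
  rw [smul_smul, mul_comm]

section

variable {m : ℕ} {T : ℝ} (F : FB (2 * m) T)

/-- factor -/
def Rj (p a : Fin (2 * m + 1) → Fin (2 * m + 1)) (j : Fin m) : F.B :=
  F.R (a (pe j)) (a (po j)) (p (pe j)) (p (po j))

/-- the summand of the Pfaffian -/
def Xf (p a : Fin (2 * m + 1) → Fin (2 * m + 1)) : F.B := F.nu (a 0) * F.nu (p 0) * ∏ j : Fin m, Rj F p a j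

lemma pf_eq : pf F = ∑ p : Equiv.Perm (Fin (2 * m + 1)), (Equiv.Perm.sign p : ℤ) •
      ∑ s : Equiv.Perm (Fin (2 * m + 1)), (Equiv.Perm.sign s : ℤ) • Xf F p s := by
  unfold pf
  rw [alt_eq]
  rfl

/-- `ν ν Z ∏_(j ≠ i) R_j` -/
def Wf (p a : Fin (2 * m + 1) → Fin (2 * m + 1)) (i : Fin m) (Z : F.B) : F.B :=
  F.nu (a 0) * F.nu (p 0) * (Z * ∏ j ∈ univ.erase i, Rj F p a j)

lemma Xf_update_pe (p a : Fin (2 * m + 1) → Fin (2 * m + 1)) (i : Fin m) (e : Fin (2 * m + 1)) :
    Xf F p (Function.update a (pe i) e) = Wf F p a i (F.R e (a (po i)) (p (pe i)) (p (po i))) := by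
  unfold Xf Wf
  rw [Function.update_of_ne (pe_zero i).symm, ← mul_prod_erase univ _ (mem_univ i)]
  congr 2
  · unfold Rj
    rw [Function.update_self, Function.update_of_ne (pe_po i i).symm]
  · refine prod_congr rfl fun j hj => ?_
    have hji : j ≠ i := ne_of_mem_erase hj
    unfold Rj
    rw [Function.update_of_ne (pe_inj hji), Function.update_of_ne (pe_po i j).symm]

lemma Xf_update_po (p a : Fin (2 * m + 1) → Fin (2 * m + 1)) (i : Fin m) (e : Fin (2 * m + 1)) :
    Xf F p (Function.update a (po i) e) = Wf F p a i (F.R (a (pe i)) e (p (pe i)) (p (po i))) := by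
  unfold Xf Wf
  rw [Function.update_of_ne (po_zero i).symm, ← mul_prod_erase univ _ (mem_univ i)]
  congr 2
  · unfold Rj
    rw [Function.update_self, Function.update_of_ne (pe_po i i)]
  · refine prod_congr rfl fun j hj => ?_
    have hji : j ≠ i := ne_of_mem_erase hj
    unfold Rj
    rw [Function.update_of_ne (po_inj hji), Function.update_of_ne (pe_po j i)]

lemma Wf_add (p a : Fin (2 * m + 1) → Fin (2 * m + 1)) (i : Fin m) (Z Z' : F.B) :
    Wf F p a i (Z + Z') = Wf F p a i Z + Wf F p a i Z' := by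
  unfold Wf; ring

lemma Wf_neg (p a : Fin (2 * m + 1) → Fin (2 * m + 1)) (i : Fin m) (Z : F.B) :
    Wf F p a i (-Z) = -Wf F p a i Z := by
  unfold Wf; ring

lemma Wf_sum (p a : Fin (2 * m + 1) → Fin (2 * m + 1)) (i : Fin m) {ι : Type} (s : Finset ι) (c Z : ι → F.B) :
    Wf F p a i (∑ e ∈ s, c e * Z e) = ∑ e ∈ s, c e * Wf F p a i (Z e) := by
  unfold Wf
  rw [sum_mul, mul_sum]
  refine sum_congr rfl fun e _ => ?_
  ring

lemma Xf_update_zero (hF : F.Full) (p a : Fin (2 * m + 1) → Fin (2 * m + 1)) :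
    ∑ e, F.S (a 0) e * Xf F p (Function.update a 0 e) = 0 := by
  have h1 : ∀ e, Xf F p (Function.update a 0 e) = F.nu e * (F.nu (p 0) * ∏ j : Fin m, Rj F p a j) := by
    intro e
    unfold Xf
    have h2 : ∀ j, Rj F p (Function.update a 0 e) j = Rj F p a j := by
      intro j
      unfold Rj
      rw [Function.update_of_ne (pe_zero j), Function.update_of_ne (po_zero j)]
    simp only [h2]
    rw [Function.update_self, mul_assoc]
  simp only [h1, ← mul_assoc]
  rw [← sum_mul, ← sum_mul, hF.nuS, zero_mul, zero_mul]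

/-- derivative of the summand -/
lemma D_Xf (hF : F.Full) (p a : Fin (2 * m + 1) → Fin (2 * m + 1)) :
    F.D (Xf F p a) = (∑ i, ∑ e, F.S (a i) e * Xf F p (Function.update a i e)) +
      ∑ i : Fin m, (-Wf F p a i (F.H (a (pe i)) (F.Y (a (po i)) (p (pe i)) (p (po i)))) +
        Wf F p a i (F.H (a (po i)) (F.Y (a (pe i)) (p (pe i)) (p (po i))))) := by
  have h1 : F.D (Xf F p a) = ∑ i : Fin m, Wf F p a i (F.D (Rj F p a i)) := by
    unfold Xf Wf
    rw [F.D.leibniz, F.D.leibniz, hF.Dnu, hF.Dnu, smul_zero, smul_zero, add_zero, smul_zero, add_zero,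
      smul_eq_mul, D_prod, mul_sum]
  rw [h1, sum_split, Xf_update_zero F hF, zero_add, ← sum_add_distrib]
  refine sum_congr rfl fun i _ => ?_
  simp only [Xf_update_pe, Xf_update_po]
  rw [← Wf_sum F p a i univ (fun e => F.S (a (pe i)) e), ← Wf_sum F p a i univ (fun e => F.S (a (po i)) e),
    ← Wf_neg, ← Wf_add, ← Wf_add, ← Wf_add]
  congr 1
  unfold Rj
  rw [hF.DR]
  ring

/-- derivative of the divergence part -/
lemma H_Wf (hF : F.Full) (p a : Fin (2 * m + 1) → Fin (2 * m + 1)) (i : Fin m) (x : Fin (2 * m + 1)) (Z : F.B) :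
    F.H x (Wf F p a i Z) = Wf F p a i (F.H x Z) + ∑ j ∈ univ.erase i,
      F.nu (a 0) * F.nu (p 0) * (Z * (F.H x (Rj F p a j) * ∏ l ∈ (univ.erase i).erase j, Rj F p a l)) := by
  have h1 : F.H x (F.nu (a 0) * F.nu (p 0)) = 0 := by
    rw [(F.H x).leibniz, hF.Hnu, hF.Hnu, smul_zero, smul_zero, add_zero]
  unfold Wf
  rw [(F.H x).leibniz, h1, smul_zero, add_zero, smul_eq_mul, (F.H x).leibniz, D_prod, smul_eq_mul, smul_eq_mul,
    ← mul_sum, ← mul_sum]
  ring

/-- exchange of the positions `pe i` and `po i` -/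
lemma swap_term (hPF2 : G_PF2) (p : Fin (2 * m + 1) → Fin (2 * m + 1)) (i : Fin m) :
    ∑ s : Equiv.Perm (Fin (2 * m + 1)), (Equiv.Perm.sign s : ℤ) •
        Wf F p s i (F.H (s (po i)) (F.Y (s (pe i)) (p (pe i)) (p (po i)))) =
      -∑ s : Equiv.Perm (Fin (2 * m + 1)), (Equiv.Perm.sign s : ℤ) •
        Wf F p s i (F.H (s (pe i)) (F.Y (s (po i)) (p (pe i)) (p (po i)))) := by
  have h := (hPF2 (2 * m + 1) F.B (fun a => Wf F p a i (F.H (a (pe i)) (F.Y (a (po i)) (p (pe i)) (p (po i)))))).2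
    (pe i) (po i) (pe_po i i)
  rw [← h]
  refine sum_congr rfl fun s _ => ?_
  congr 1
  unfold Wf
  show F.nu (s 0) * F.nu (p 0) * _ = F.nu (s (Equiv.swap (pe i) (po i) 0)) * F.nu (p 0) * _
  rw [Equiv.swap_apply_of_ne_of_ne (pe_zero i).symm (po_zero i).symm]
  congr 2
  · beta_reduce
    rw [Equiv.swap_apply_left, Equiv.swap_apply_right]
  · refine prod_congr rfl fun j hj => ?_
    have hji : j ≠ i := ne_of_mem_erase hj
    unfold Rj
    beta_reduce
    rw [Equiv.swap_apply_of_ne_of_ne (pe_inj hji) (pe_po j i),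
      Equiv.swap_apply_of_ne_of_ne (pe_po i j).symm (po_inj hji)]

/-- the second Bianchi identity -/
lemma bianchi_term (hF : F.Full) (hPF2 : G_PF2) (p : Fin (2 * m + 1) → Fin (2 * m + 1)) (i j : Fin m)
    (hji : j ≠ i) :
    ∑ s : Equiv.Perm (Fin (2 * m + 1)), (Equiv.Perm.sign s : ℤ) •
      (F.nu (s 0) * F.nu (p 0) * (F.Y (s (po i)) (p (pe i)) (p (po i)) * (F.H (s (pe i)) (Rj F p s j) *
        ∏ l ∈ (univ.erase i).erase j, Rj F p s l))) = 0 := by
  refine (hPF2 (2 * m + 1) F.B (fun a => F.nu (a 0) * F.nu (p 0) * (F.Y (a (po i)) (p (pe i)) (p (po i)) *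
    (F.H (a (pe i)) (Rj F p a j) * ∏ l ∈ (univ.erase i).erase j, Rj F p a l)))).1 (pe i) (pe j) (po j)
    (pe_inj hji.symm) (pe_po j j) (pe_po i j) ?_
  intro a
  have hc0 : ∀ l : Fin (2 * m + 1), l ≠ pe i → l ≠ pe j → l ≠ po j →
      (Equiv.swap (pe i) (pe j) * Equiv.swap (pe j) (po j) : Equiv.Perm _) l = l := by
    intro l h1 h2 h3
    rw [Equiv.Perm.mul_apply, Equiv.swap_apply_of_ne_of_ne h2 h3, Equiv.swap_apply_of_ne_of_ne h1 h2]
  have hd0 : ∀ l : Fin (2 * m + 1), l ≠ pe i → l ≠ pe j → l ≠ po j →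
      (Equiv.swap (pe j) (po j) * Equiv.swap (pe i) (pe j) : Equiv.Perm _) l = l := by
    intro l h1 h2 h3
    rw [Equiv.Perm.mul_apply, Equiv.swap_apply_of_ne_of_ne h1 h2, Equiv.swap_apply_of_ne_of_ne h2 h3]
  have c1 : (Equiv.swap (pe i) (pe j) * Equiv.swap (pe j) (po j) : Equiv.Perm (Fin (2 * m + 1))) (pe i) = pe j := by
    rw [Equiv.Perm.mul_apply, Equiv.swap_apply_of_ne_of_ne (pe_inj hji.symm) (pe_po i j), Equiv.swap_apply_left]
  have c2 : (Equiv.swap (pe i) (pe j) * Equiv.swap (pe j) (po j) : Equiv.Perm (Fin (2 * m + 1))) (pe j) = po j := by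
    rw [Equiv.Perm.mul_apply, Equiv.swap_apply_left,
      Equiv.swap_apply_of_ne_of_ne (pe_po i j).symm (pe_po j j).symm]
  have c3 : (Equiv.swap (pe i) (pe j) * Equiv.swap (pe j) (po j) : Equiv.Perm (Fin (2 * m + 1))) (po j) = pe i := by
    rw [Equiv.Perm.mul_apply, Equiv.swap_apply_right, Equiv.swap_apply_right]
  have d1 : (Equiv.swap (pe j) (po j) * Equiv.swap (pe i) (pe j) : Equiv.Perm (Fin (2 * m + 1))) (pe i) = po j := by
    rw [Equiv.Perm.mul_apply, Equiv.swap_apply_left, Equiv.swap_apply_left]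
  have d2 : (Equiv.swap (pe j) (po j) * Equiv.swap (pe i) (pe j) : Equiv.Perm (Fin (2 * m + 1))) (pe j) = pe i := by
    rw [Equiv.Perm.mul_apply, Equiv.swap_apply_right,
      Equiv.swap_apply_of_ne_of_ne (pe_inj hji.symm) (pe_po i j)]
  have d3 : (Equiv.swap (pe j) (po j) * Equiv.swap (pe i) (pe j) : Equiv.Perm (Fin (2 * m + 1))) (po j) = pe j := by
    rw [Equiv.Perm.mul_apply, Equiv.swap_apply_of_ne_of_ne (pe_po i j).symm (pe_po j j).symm,
      Equiv.swap_apply_right]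
  have e0 := hc0 0 (pe_zero i).symm (pe_zero j).symm (po_zero j).symm
  have f0 := hd0 0 (pe_zero i).symm (pe_zero j).symm (po_zero j).symm
  have e1 := hc0 (po i) (pe_po i i).symm (pe_po j i).symm (po_inj hji.symm)
  have f1 := hd0 (po i) (pe_po i i).symm (pe_po j i).symm (po_inj hji.symm)
  have P1 : ∏ l ∈ (univ.erase i).erase j,
      Rj F p (fun l => a ((Equiv.swap (pe i) (pe j) * Equiv.swap (pe j) (po j) : Equiv.Perm _) l)) l =
      ∏ l ∈ (univ.erase i).erase j, Rj F p a l := by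
    refine prod_congr rfl fun l hl => ?_
    have hlj : l ≠ j := ne_of_mem_erase hl
    have hli : l ≠ i := ne_of_mem_erase (mem_of_mem_erase hl)
    unfold Rj
    beta_reduce
    rw [hc0 (pe l) (pe_inj hli) (pe_inj hlj) (pe_po l j),
      hc0 (po l) (pe_po i l).symm (pe_po j l).symm (po_inj hlj)]
  have P2 : ∏ l ∈ (univ.erase i).erase j,
      Rj F p (fun l => a ((Equiv.swap (pe j) (po j) * Equiv.swap (pe i) (pe j) : Equiv.Perm _) l)) l =
      ∏ l ∈ (univ.erase i).erase j, Rj F p a l := by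
    refine prod_congr rfl fun l hl => ?_
    have hlj : l ≠ j := ne_of_mem_erase hl
    have hli : l ≠ i := ne_of_mem_erase (mem_of_mem_erase hl)
    unfold Rj
    beta_reduce
    rw [hd0 (pe l) (pe_inj hli) (pe_inj hlj) (pe_po l j),
      hd0 (po l) (pe_po i l).symm (pe_po j l).symm (po_inj hlj)]
  have b := hF.bia2 (a (pe i)) (a (pe j)) (a (po j)) (p (pe j)) (p (po j))
  simp only [P1, P2, e0, f0, e1, f1, c1, d1]
  unfold Rj
  simp only [c2, c3, d2, d3]
  linear_combination (F.nu (a 0) * F.nu (p 0) * (F.Y (a (po i)) (p (pe i)) (p (po i)) *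
    ∏ l ∈ (univ.erase i).erase j, F.R (a (pe l)) (a (po l)) (p (pe l)) (p (po l)))) * b

lemma pw_eq (x : Fin (2 * m + 1)) : pw F x = ∑ i : Fin m,
    ∑ p : Equiv.Perm (Fin (2 * m + 1)), (Equiv.Perm.sign p : ℤ) •
      ∑ s : Equiv.Perm (Fin (2 * m + 1)), (Equiv.Perm.sign s : ℤ) •
        ((if s (pe i) = x then (-2 : F.B) else 0) * Wf F p s i (F.Y (s (po i)) (p (pe i)) (p (po i)))) := by
  unfold pw
  refine sum_congr rfl fun i _ => ?_
  rw [alt_eq]
  rfl

lemma H_ite (x : Fin (2 * m + 1)) (c : Prop) [Decidable c] (Z : F.B) :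
    F.H x ((if c then (-2 : F.B) else 0) * Z) = if c then (-2 : F.B) * F.H x Z else 0 := by
  split_ifs
  · have h1 : (-2 : F.B) * Z = -(Z + Z) := by ring
    rw [h1, map_neg, map_add]
    ring
  · rw [zero_mul, map_zero]

end

end PF3aux

open PF3aux

theorem g_PF3 (hPF1 : G_PF1) (hPF2 : G_PF2) : G_PF3 := by
  intro m T F hF
  -- left side
  have hL : F.D (pf F) = (∑ a, F.S a a) * pf F + ∑ p : Equiv.Perm (Fin (2 * m + 1)), (Equiv.Perm.sign p : ℤ) •
      ∑ i : Fin m, (-2 : F.B) * ∑ s : Equiv.Perm (Fin (2 * m + 1)), (Equiv.Perm.sign s : ℤ) •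
        Wf F p s i (F.H (s (pe i)) (F.Y (s (po i)) (p (pe i)) (p (po i)))) := by
    rw [pf_eq, map_sum, mul_sum, ← sum_add_distrib]
    refine sum_congr rfl fun p _ => ?_
    rw [map_zsmul, map_sum, mul_smul_comm, ← smul_add]
    congr 1
    have h1 := hPF1 (2 * m + 1) F.B F.S (Xf F p)
    rw [← h1]
    have h2 : ∑ s : Equiv.Perm (Fin (2 * m + 1)), F.D ((Equiv.Perm.sign s : ℤ) • Xf F p s) =
        (∑ s : Equiv.Perm (Fin (2 * m + 1)), (Equiv.Perm.sign s : ℤ) •
          ∑ i, ∑ e, F.S (s i) e * Xf F p (Function.update (s : Fin (2 * m + 1) → Fin (2 * m + 1)) i e)) +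
        ∑ s : Equiv.Perm (Fin (2 * m + 1)), (Equiv.Perm.sign s : ℤ) •
          ∑ i : Fin m, (-Wf F p s i (F.H (s (pe i)) (F.Y (s (po i)) (p (pe i)) (p (po i)))) +
            Wf F p s i (F.H (s (po i)) (F.Y (s (pe i)) (p (pe i)) (p (po i))))) := by
      rw [← sum_add_distrib]
      refine sum_congr rfl fun s _ => ?_
      rw [map_zsmul, D_Xf F hF, smul_add]
    rw [h2]
    congr 1
    simp only [smul_sum]
    rw [sum_comm]
    refine sum_congr rfl fun i _ => ?_
    simp only [smul_add, smul_neg, sum_add_distrib, sum_neg_distrib]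
    rw [swap_term F hPF2 p i]
    ring
  -- right side
  have hR : ∑ x, F.H x (pw F x) = ∑ p : Equiv.Perm (Fin (2 * m + 1)), (Equiv.Perm.sign p : ℤ) •
      ∑ i : Fin m, (-2 : F.B) * ∑ s : Equiv.Perm (Fin (2 * m + 1)), (Equiv.Perm.sign s : ℤ) •
        Wf F p s i (F.H (s (pe i)) (F.Y (s (po i)) (p (pe i)) (p (po i)))) := by
    have h1 : ∀ x, F.H x (pw F x) = ∑ p : Equiv.Perm (Fin (2 * m + 1)), (Equiv.Perm.sign p : ℤ) •
      ∑ i : Fin m, ∑ s : Equiv.Perm (Fin (2 * m + 1)), (Equiv.Perm.sign s : ℤ) •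
        (if s (pe i) = x then (-2 : F.B) * F.H x (Wf F p s i (F.Y (s (po i)) (p (pe i)) (p (po i)))) else 0) := by
      intro x
      rw [pw_eq, map_sum]
      simp only [map_sum, map_zsmul, H_ite]
      rw [sum_comm]
      refine sum_congr rfl fun p _ => ?_
      rw [smul_sum]
    simp only [h1]
    rw [sum_comm]
    refine sum_congr rfl fun p _ => ?_
    rw [← smul_sum]
    congr 1
    rw [sum_comm]
    refine sum_congr rfl fun i _ => ?_
    rw [sum_comm]
    have h2 : ∀ s : Equiv.Perm (Fin (2 * m + 1)), ∑ x, (Equiv.Perm.sign s : ℤ) •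
        (if s (pe i) = x then (-2 : F.B) * F.H x (Wf F p s i (F.Y (s (po i)) (p (pe i)) (p (po i)))) else 0) =
        (-2 : F.B) * ((Equiv.Perm.sign s : ℤ) •
          F.H (s (pe i)) (Wf F p s i (F.Y (s (po i)) (p (pe i)) (p (po i))))) := by
      intro s
      rw [← smul_sum, sum_ite_eq, if_pos (mem_univ _), mul_smul_comm]
    simp only [h2]
    rw [← mul_sum]
    congr 1
    simp only [H_Wf F hF, smul_add, smul_sum, sum_add_distrib]
    have h3 : ∑ s : Equiv.Perm (Fin (2 * m + 1)), ∑ j ∈ univ.erase i, (Equiv.Perm.sign s : ℤ) •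
        (F.nu (s 0) * F.nu (p 0) * (F.Y (s (po i)) (p (pe i)) (p (po i)) * (F.H (s (pe i)) (Rj F p s j) *
          ∏ l ∈ (univ.erase i).erase j, Rj F p s l))) = 0 := by
      rw [sum_comm]
      refine sum_eq_zero fun j hj => ?_
      exact bianchi_term F hF hPF2 p i j (ne_of_mem_erase hj)
    rw [h3, add_zero]
  rw [hL, hR]

end Pool.Agent.Helper47.FLG
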