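import Pool.Agent.Helper47.FLG.Fun
import Pool.Agent.Helper36.FLG.FnGoals

/-!
# Project FLG (MP_c98eff_gt): function level Harnack inequality (`HrfStmt`)

The hypothesis `Pool.Agent.Helper36.FLG.HrnF` is the function level version of `G_HRN`
(theorem `Pool.Agent.Helper36.FLG.hrnF`).
-/

namespace Pool.Agent.Helper47.FLG

open Finset Pool.Agent.Helper47.RFn Pool.Agent.Helper73.RFn

namespace HRFaux

lemma qf_nn (hWQ : Goal_WQ) (n : ℕ) (z w : Fin n → ℂ) : 0 ≤ qf (Id4 n) z w := by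
  have h0 : ∀ v : Fin n → ℝ, rq (0 : M2 n) v = 0 := by
    intro v; unfold rq; simp
  refine (hWQ n 0 0 0 (Matrix.isSymm_zero) (fun v => ?_) (fun v => ?_) z w).1
  · rw [h0]; simp
  · rw [h0]; simp

/-- the choice of the constants -/
lemma consts {η K L b τ : ℝ} (hη : 0 < η) (hK : 0 < K) (hL : 0 < L) {A1 : ℝ} (hA2 : 2 ≤ A1) (hAK : 8 * K / η ≤ A1)
    (hb0 : 0 ≤ b) (hb : b ≤ 2 * L / A1) (hτ : τ * L = 1) :
    η / 4 * L + K * b + K ^ 2 * b ^ 2 / (η / 4) * τ ≤ 3 * η / 4 * L := by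
  have hA : 0 < A1 := by linarith
  have h1 : 8 * K ≤ A1 * η := by rwa [div_le_iff₀ hη] at hAK
  have hb' : b * A1 ≤ 2 * L := by rwa [le_div_iff₀ hA] at hb
  have hτ0 : 0 < τ := by
    by_contra h
    have : τ * L ≤ 0 := mul_nonpos_of_nonpos_of_nonneg (not_lt.1 h) hL.le
    linarith
  -- `K b ≤ (η / 4) L`
  have h2 : K * b ≤ η / 4 * L := by
    have h3 : 8 * K * b ≤ A1 * η * b := mul_le_mul_of_nonneg_right h1 hb0
    have h4 : A1 * η * b ≤ η * (2 * L) := by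
      calc A1 * η * b = η * (b * A1) := by ring
        _ ≤ η * (2 * L) := mul_le_mul_of_nonneg_left hb' hη.le
    linarith
  have h0 : 0 ≤ K * b := mul_nonneg hK.le hb0
  have h5 : (K * b) ^ 2 ≤ (η / 4 * L) ^ 2 := pow_le_pow_left₀ h0 h2 2
  have h6 : K ^ 2 * b ^ 2 / (η / 4) * τ ≤ η / 4 * L := by
    rw [← mul_pow, div_mul_eq_mul_div, div_le_iff₀ (by positivity)]
    calc (K * b) ^ 2 * τ ≤ (η / 4 * L) ^ 2 * τ := mul_le_mul_of_nonneg_right h5 hτ0.le
      _ = η / 4 * L * (η / 4) * (τ * L) := by ring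
      _ = η / 4 * L * (η / 4) := by rw [hτ, mul_one]
  linarith

end HRFaux

open HRFaux

theorem p_HRF (hHRN : Pool.Agent.Helper36.FLG.HrnF) (hSOF : SofStmt) (hFIV : FivStmt)
    (hSHF : Pool.Agent.Helper19.RFn.ShfStmt) (hWQ : Goal_WQ) : HrfStmt := by
  intro n hn l hl
  obtain ⟨η, hη, hH⟩ := hHRN n hn l hl
  obtain ⟨K, hK, hS⟩ := hSOF n hn (η / 4) (by positivity)
  obtain ⟨CF, -, hI⟩ := hFIV n hn
  refine ⟨η / (4 * K), by positivity, max 2 (8 * K / η), le_max_left _ _, ?_⟩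
  intro T l0 A θ hT hl0 hF hini s y hs0 hsT hy hA1 hnq
  set A1 : ℝ := max 2 (8 * K / η) with hA1def
  have hA2 : 2 ≤ A1 := le_max_left _ _
  have hAK : 8 * K / η ≤ A1 := le_max_right _ _
  have hA0 : 0 < A1 := by linarith
  set L : ℝ := lamf (A s) (θ s) y with hL
  have hL0 : 0 < L := hl0.trans_le (hI T l0 A θ hT hl0 hF hini s hs0.le hsT y hy).1
  set τ : ℝ := 1 / L with hτ
  have hτ0 : 0 < τ := by positivity
  have hτL : τ * L = 1 := by rw [hτ]; field_simp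
  have hsτ : A1 * τ ≤ s := by
    have : A1 / L ≤ s := by rw [div_le_iff₀ hL0]; exact hA1
    calc A1 * τ = A1 / L := by rw [hτ]; ring
      _ ≤ s := this
  set s0 : ℝ := s - τ with hs0def
  have hs0A : A1 / 2 * τ ≤ s0 := by
    have : 2 * τ ≤ A1 * τ := mul_le_mul_of_nonneg_right hA2 hτ0.le
    have h1 : A1 / 2 * τ = A1 * τ - A1 * τ / 2 := by ring
    have h2 : τ ≤ A1 * τ / 2 := by linarith
    rw [h1, hs0def]; linarith
  have hs00 : 0 < s0 := lt_of_lt_of_le (by positivity) hs0A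
  have hsum : s0 + τ = s := by rw [hs0def]; ring
  -- the shifted flow
  obtain ⟨T', hT'1, hT'2⟩ : ∃ T', τ < T' ∧ T' < T - s0 := exists_between (by rw [hs0def]; linarith)
  have hT'0 : 0 < T' := hτ0.trans hT'1
  have hin : ∀ t, 0 ≤ t → t ≤ T' → 0 ≤ s0 + t ∧ s0 + t < T := fun t h0 h1 => ⟨by linarith, by linarith⟩
  have hF' : FFlow (Set.Icc 0 T') (fun t => A (s0 + t)) (fun t => θ (s0 + t)) :=
    (hSHF n A θ (fun _ _ => 0) (Set.Ico 0 T) (Set.Icc 0 T')).2.2 s0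
      (fun t ht => ⟨(hin t ht.1 ht.2).1, (hin t ht.1 ht.2).2⟩) hF
  have hb0 : 0 ≤ 1 / s0 := by positivity
  have hbL : 1 / s0 ≤ 2 * L / A1 := by
    rw [div_le_div_iff₀ hs00 hA0]
    have h1 : 2 * L * (A1 / 2 * τ) ≤ 2 * L * s0 := mul_le_mul_of_nonneg_left hs0A (by positivity)
    have h2 : 2 * L * (A1 / 2 * τ) = A1 * (τ * L) := by ring
    rw [h2, hτL] at h1
    linarith
  have hcon := consts hη hK hL0 hA2 hAK hb0 hbL hτL
  obtain ⟨ι, hι, z', w', hq, hqn⟩ := hnq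
  obtain ⟨h, hSm, hg, hy0, hx⟩ := hH T' l0 (fun t => A (s0 + t)) (fun t => θ (s0 + t)) hT'0 hl0 hF'
    (fun t h0 h1 x hx => (hI T l0 A θ hT hl0 hF hini (s0 + t) (hin t h0 h1).1 (hin t h0 h1).2 x hx).1)
    (fun t h0 h1 x hx => (hI T l0 A θ hT hl0 hF hini (s0 + t) (hin t h0.le h1.le).1
      (hin t h0.le h1.le).2 x hx).2.1)
    (η / 4) K (1 / s0) (by positivity) hK hb0
    (by
      intro t h0 h1 x hx ι' hι' z w
      have h2 := hS T l0 A θ hT hl0 hF hini (s0 + t) (by linarith) (hin t h0.le h1.le).2 x hx ι' hι' z w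
      refine h2.trans ?_
      have h3 : K / (s0 + t) ≤ K * (1 / s0) := by
        rw [mul_one_div]
        exact div_le_div_of_nonneg_left hK.le hs00 (by linarith)
      have h4 := mul_le_mul_of_nonneg_right h3 (qf_nn hWQ n z w)
      have e1 : (η / 4 * lamf (A (s0 + t)) (θ (s0 + t)) x + K / (s0 + t)) * qf (Id4 n) z w =
        η / 4 * lamf (A (s0 + t)) (θ (s0 + t)) x * qf (Id4 n) z w + K / (s0 + t) * qf (Id4 n) z w := by ring
      have e2 : (η / 4 * lamf (A (s0 + t)) (θ (s0 + t)) x + K * (1 / s0)) * qf (Id4 n) z w =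
        η / 4 * lamf (A (s0 + t)) (θ (s0 + t)) x * qf (Id4 n) z w + K * (1 / s0) * qf (Id4 n) z w := by ring
      show _ ≤ (η / 4 * lamf (A (s0 + t)) (θ (s0 + t)) x + K * (1 / s0)) * qf (Id4 n) z w + _
      rw [e1, e2]
      have e3 : RT (A (s0 + t)) (θ (s0 + t)) x = fun a b c d => Rf (A (s0 + t)) (θ (s0 + t)) a b c d x := rfl
      rw [e3]
      linarith)
    τ y hτ0 hT'1 hy (by
      show τ * lamf (A (s0 + τ)) (θ (s0 + τ)) y = 1
      rw [hsum]; exact hτL)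
    (by
      show ∃ ι, Iso (fun a => nfc (A (s0 + τ)) a y) ι ∧ ∃ z' w' : Fin n → ℂ, qf (Id4 n) z' w' ≠ 0 ∧
        (η / 4 * lamf (A (s0 + τ)) (θ (s0 + τ)) y + K * (1 / s0) + K ^ 2 * (1 / s0) ^ 2 / (η / 4) * τ) *
          qf (Id4 n) z' w' + K * qf (pull ι (fun a b c d => Rf (A (s0 + τ)) (θ (s0 + τ)) a b c d y)) z' w' ≤
          η * lamf (A (s0 + τ)) (θ (s0 + τ)) y * qf (Id4 n) z' w'
      rw [hsum]
      refine ⟨ι, hι, z', w', hq, ?_⟩
      have e3 : (fun a b c d => Rf (A s) (θ s) a b c d y) = RT (A s) (θ s) y := rfl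
      rw [e3, ← hL]
      rw [← hL] at hqn
      have h3 := mul_le_mul_of_nonneg_right hcon (qf_nn hWQ n z' w')
      have h4 := mul_le_mul_of_nonneg_left hqn hK.le
      have h5 : K * (η / (4 * K) * L * qf (Id4 n) z' w') = η / 4 * L * qf (Id4 n) z' w' := by field_simp
      rw [h5] at h4
      have h6 : η * L * qf (Id4 n) z' w' = 3 * η / 4 * L * qf (Id4 n) z' w' + η / 4 * L * qf (Id4 n) z' w' := by ring
      rw [h6]
      linarith)
  have hg' : ∀ x, x ≠ 0 → ggf (A s) h h x ≤ 1 := by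
    intro x hx'
    have h1 : ggf (A (s0 + τ)) h h x ≤ 1 := hg x hx'
    rwa [hsum] at h1
  refine ⟨h, hSm, hg', hy0, fun x hx' hhx => ?_⟩
  have hsq : l / Real.sqrt L = l * Real.sqrt τ := by
    rw [hτ, Real.sqrt_div zero_le_one, Real.sqrt_one]; ring
  have h1 : 1 / (10 * τ) ≤ lamf (A (s0 + τ)) (θ (s0 + τ)) x := hx x hx' (by rw [← hsq]; exact hhx)
  rw [hsum] at h1
  have h2 : L / 10 = 1 / (10 * τ) := by rw [hτ]; field_simp
  rw [h2]
  exact h1

end Pool.Agent.Helper47.FLG
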